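import Pool.Agent.Helper99.WP.GoalsW

set_option autoImplicit false

/-! Packet WP MTT (MP_f41a60_pr): matrix tree theorem. -/

open Finset
open Pool.Agent.Helper99.WP Pool.Agent.Helper99.ERW

namespace Pool.Agent.Helper55.WP

theorem mtt_row {V : Type} [Fintype V] [DecidableEq V] (w : V → Option V → ℝ)
    (hw : ∀ y, ∑ c, w y c = 1) :
    (1 - Tmat w : Matrix V V ℝ) = fun y => ∑ c : Option V, (w y c) •
      (fun z => (if y = z then (1 : ℝ) else 0) - if c = some z then 1 else 0) := by
  funext y z
  rw [Matrix.sub_apply, Matrix.one_apply, Finset.sum_apply]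
  simp only [Pi.smul_apply, smul_eq_mul, mul_sub, Finset.sum_sub_distrib]
  rw [← Finset.sum_mul, hw y, one_mul]
  congr 1
  simp [Tmat]

theorem mtt_det {V : Type} [Fintype V] [DecidableEq V] (w : V → Option V → ℝ)
    (hw : ∀ y, ∑ c, w y c = 1) :
    (1 - Tmat w).det = ∑ c : V → Option V, (∏ y, w y (c y)) *
      (Matrix.of fun y z : V => (if y = z then (1 : ℝ) else 0) -
        if c y = some z then 1 else 0).det := by
  rw [mtt_row w hw]
  show (Matrix.detRowAlternating : (V → ℝ) [⋀^V]→ₗ[ℝ] ℝ) (fun y => ∑ c : Option V, (w y c) •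
      (fun z => (if y = z then (1 : ℝ) else 0) - if c = some z then 1 else 0)) = _
  have h := MultilinearMap.map_sum (Matrix.detRowAlternating : (V → ℝ) [⋀^V]→ₗ[ℝ] ℝ).toMultilinearMap
    (fun (y : V) (c : Option V) => (w y c) •
      (fun z : V => (if y = z then (1 : ℝ) else 0) - if c = some z then 1 else 0))
  refine h.trans ?_
  refine Finset.sum_congr rfl fun c _ => ?_
  have h2 := MultilinearMap.map_smul_univ
    (Matrix.detRowAlternating : (V → ℝ) [⋀^V]→ₗ[ℝ] ℝ).toMultilinearMap (fun y => w y (c y))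
    (fun y z : V => (if y = z then (1 : ℝ) else 0) - if c y = some z then 1 else 0)
  refine h2.trans ?_
  rw [smul_eq_mul]
  rfl

theorem MTT (hDET : DET_stmt) : MTT_stmt := by
  intro V _ _ w hw
  classical
  rw [mtt_det w hw]
  unfold DD
  refine Finset.sum_congr rfl fun c _ => ?_
  congr 1
  by_cases hc : Acyc c
  · rw [if_pos hc]
    exact (hDET V c).1 hc
  · rw [if_neg hc]
    exact (hDET V c).2 hc

end Pool.Agent.Helper55.WP
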